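import Mathlib
import Pool.Agent.H.MP_d89e95_an.E

open Real Finset Sum Filter Topology MeasureTheory Pool.Agent.H.MP_d89e95_an

namespace Pool.Agent.Results.MP_d89e95_an.NotPreserved

open Classical in
/-- The right-hand side of the homogeneous Kuramoto model on G. -/
noncomputable def field {V : Type} [Fintype V] (G : SimpleGraph V) (z : V → ℝ) (i : V) : ℝ :=
  ∑ j, (if G.Adj i j then 1 else 0) * sin (z j - z i)

/-- θ solves the Kuramoto system on G at all times. -/
def IsSol {V : Type} [Fintype V] (G : SimpleGraph V) (θ : ℝ → V → ℝ) : Prop :=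
  ∀ t, HasDerivAt θ (field G (θ t)) t

/-- For Lebesgue almost every initial state, all phase differences tend to 0 modulo 2π. -/
def GS {V : Type} [Fintype V] (G : SimpleGraph V) : Prop :=
  ∀ᵐ x : V → ℝ, ∀ θ : ℝ → V → ℝ, θ 0 = x → IsSol G θ →
    ∀ i j, Tendsto (fun t => ((θ t i - θ t j : ℝ) : Real.Angle)) atTop (𝓝 0)

/-- G with a new vertex (none) joined to every old vertex. -/
def addUniv {V : Type} (G : SimpleGraph V) : SimpleGraph (Option V) :=
  SimpleGraph.fromRel fun u v => u = none ∨ ∃ a b, u = some a ∧ v = some b ∧ G.Adj a b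

lemma field_eq {V : Type} [Fintype V] (G : SimpleGraph V) (a : V → V → ℝ)
    (h1 : ∀ i j, G.Adj i j → a i j = 1) (h0 : ∀ i j, i ≠ j → ¬ G.Adj i j → a i j = 0) :
    field G = F a := by
  funext z i
  refine sum_congr rfl fun j _ => ?_
  by_cases e : i = j
  · simp [e]
  · split_ifs with h
    exacts [by rw [h1 i j h], by rw [h0 i j e h]]

def G0 : SimpleGraph V0 := SimpleGraph.fromRel fun u v => w par u v = 1

lemma w01 (i j : V0) : w par i j = 1 ∨ w par i j = 0 := by
  rcases i with i | i <;> rcases j with j | j <;> simp only [w] <;>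
    first | (split_ifs <;> simp) | simp

lemma a1 (i j : V0) (h : G0.Adj i j) : w par i j = 1 := by
  rcases h.2 with h | h
  exacts [h, ((w_wt par).sy i j).trans h]

lemma a0 (i j : V0) (e : i ≠ j) (h : ¬ G0.Adj i j) : w par i j = 0 :=
  (w01 i j).resolve_left fun h' => h ⟨e, Or.inl h'⟩

lemma f0 : field G0 = F (w par) := field_eq _ _ a1 a0

lemma f1 : field (addUniv G0) = F (wu (w par)) := by
  refine field_eq _ _ ?_ ?_
  · rintro (_ | i) (_ | j) h
    · exact absurd rfl h.1
    · rfl
    · rfl
    · rcases h.2 with (h | ⟨a, b, h1, h2, h⟩) | (h | ⟨a, b, h1, h2, h⟩)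
      · cases h
      · cases h1; cases h2; exact a1 _ _ h
      · cases h
      · cases h1; cases h2; exact a1 _ _ h.symm
  · rintro (_ | i) (_ | j) e h
    · rfl
    · exact absurd ⟨e, Or.inl (Or.inl rfl)⟩ h
    · exact absurd ⟨e, Or.inr (Or.inl rfl)⟩ h
    · exact a0 i j (fun e' => e (by rw [e'])) fun h' => h ⟨e, Or.inl (Or.inr ⟨i, j, rfl, rfl, h'⟩)⟩

lemma angle {u : ℝ → ℝ} (h : Tendsto (fun t => cos (u t)) atTop (𝓝 1)) :
    Tendsto (fun t => (u t : Real.Angle)) atTop (𝓝 0) := by
  have h1 : Tendsto (fun t => (u t : Real.Angle).toReal) atTop (𝓝 0) := by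
    rw [tendsto_zero_iff_abs_tendsto_zero]
    have := (continuous_arccos.tendsto 1).comp h
    rw [arccos_one] at this
    refine this.congr fun t => ?_
    simp only [Function.comp]
    rw [← Real.Angle.cos_coe, ← Real.Angle.cos_toReal, ← cos_abs,
      arccos_cos (abs_nonneg _) (Real.Angle.abs_toReal_le_pi _)]
  simpa [Function.comp_def] using (Real.Angle.continuous_coe.tendsto 0).comp h1

lemma gs0 : GS G0 := by
  filter_upwards [sync (C := Option X) (by simp; decide) par] with x hx θ h0 hθ
  have hD := hx θ h0 (by rw [Sol, ← f0]; exact hθ)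
  have h1 : ∀ i j, w par i j = 1 →
      Tendsto (fun t => ((θ t j - θ t i : ℝ) : Real.Angle)) atTop (𝓝 0) := fun i j e => by
    refine angle ?_
    have : Tendsto (fun t => 1 - cos (θ t j - θ t i)) atTop (𝓝 0) := by
      have nn : ∀ t i j, 0 ≤ w par i j * (1 - cos (θ t j - θ t i)) := fun t i j =>
        mul_nonneg ((w_wt par).h0 i j) (by linarith [cos_le_one (θ t j - θ t i)])
      refine squeeze_zero (fun t => by linarith [cos_le_one (θ t j - θ t i)]) (fun t => ?_) hD
      calc 1 - cos (θ t j - θ t i) = w par i j * (1 - cos (θ t j - θ t i)) := by rw [e, one_mul]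
        _ ≤ ∑ j, w par i j * (1 - cos (θ t j - θ t i)) :=
          single_le_sum (f := fun j => w par i j * (1 - cos (θ t j - θ t i)))
            (fun j _ => nn t i j) (mem_univ j)
        _ ≤ _ := single_le_sum (f := fun i => ∑ j, w par i j * (1 - cos (θ t j - θ t i)))
            (fun i _ => sum_nonneg fun j _ => nn t i j) (mem_univ i)
    simpa using this.const_sub 1
  have h2 : ∀ i, Tendsto (fun t => ((θ t i - θ t (inl none) : ℝ) : Real.Angle)) atTop (𝓝 0) := by
    rintro (i | l)
    · exact h1 _ _ rfl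
    · have := (h1 (inl (par l)) (inr l) (by simp [w])).add (h1 (inl none) (inl (par l)) rfl)
      simpa using this
  intro i j
  simpa using (h2 i).sub (h2 j)

lemma ngs : ¬ GS (addUniv G0) := fun h => by
  have hw := wu_wt (w_wt par)
  obtain ⟨U, hU, hx, H⟩ := stable hw none equil (by norm_num) hess
  obtain ⟨x, x1, x2⟩ := Measure.exists_mem_of_measure_ne_zero_of_ae (hU.measure_ne_zero volume ⟨_, hx⟩)
    (ae_restrict_of_ae h)
  obtain ⟨θ, h0, hθ⟩ := exists_sol hw x
  have h1 := (Real.Angle.continuous_cos.tendsto 0).comp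
    (x2 θ h0 (by rw [IsSol, f1]; exact hθ) (some (inl none)) none)
  simp only [Function.comp_def, Real.Angle.cos_coe, Real.Angle.cos_zero] at h1
  obtain ⟨t, t1, t0⟩ := ((h1.eventually (lt_mem_nhds one_pos)).and (eventually_ge_atTop 0)).exists
  have h2 := H θ (h0 ▸ x1) hθ t t0 (some (inl none))
  simp only [xs, sub_zero] at h2
  rw [abs_le] at h2
  have := cos_nonneg_of_mem_Icc (x := θ t (some (inl none)) - θ t none - π)
    ⟨by linarith [pi_gt_three], by linarith [pi_gt_three]⟩
  rw [cos_sub_pi] at this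
  linarith

theorem result : ∃ (V : Type) (_ : Fintype V) (G : SimpleGraph V),
    (∀ x, ∃ θ, θ 0 = x ∧ IsSol G θ) ∧ GS G ∧ ¬ GS (addUniv G) :=
  ⟨V0, inferInstance, G0, fun x => by simpa only [IsSol, f0, Sol] using exists_sol (w_wt par) x,
    gs0, ngs⟩

end Pool.Agent.Results.MP_d89e95_an.NotPreserved
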